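import Pool.Agent.Y936.AF4.Fin
import Pool.Agent.H610R2.AF.Infra

/-!
A smaller upper bound for the optimal constant in the almost flat manifolds theorem.

The examples are mapping tori of `T^(4m+r)` by a cyclic shift of `m` copies of the companion
matrix of `x⁴ + x + 1`, all of whose roots have modulus `√B` or `1/√B` with `1 < B < √2`; the
geometric part is the one of the starting file `DiameterBound` (project AF, helper610 and others),
the new lattices are by helper936.
-/

open H610AF

namespace Pool.Agent.Results.MP_e7e442_gt.SmallerDiameter

/-- For every `d ≥ 5` and every `D > log 2 / (8 ⌊(d-1)/4⌋)` there are a `d`-dimensional real vector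
space `E`, a smooth Riemannian metric `g` on `E` with all sectional curvatures between `-1` and
`1`, and a group `Γ` of isometries of `(E, g)` which acts freely and properly discontinuously with
compact quotient `E / Γ`, such that any two points of the quotient are joined by a path of length
less than `D`, while `Γ` has no nilpotent subgroup of finite index and is not isomorphic to the
fundamental group of any infranilmanifold. -/
theorem result (d : ℕ) (hd : 5 ≤ d) (D : ℝ)
    (hD : Real.log 2 / (8 * ((d - 1) / 4 : ℕ)) < D) :
    ∃ (E : Type) (_ : NormedAddCommGroup E) (_ : NormedSpace ℝ E) (_ : FiniteDimensional ℝ E),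
      Module.finrank ℝ E = d ∧ ∃ (g : RMetric E) (Γ : Subgroup (Equiv.Perm E)),
        CurvBound g ∧ IsCompactForm g Γ ∧ DiamLT g Γ D ∧
        ¬ VirtuallyNilpotent Γ ∧ ¬ IsInfranilGroup Γ := by
  obtain ⟨E, i1, i2, i3, h1, g, Γ, h2, h3, h4, h5⟩ := Pool.Agent.Y936.AF4.asm4 d hd D hD
  exact ⟨E, i1, i2, i3, h1, g, Γ, h2, h3, h4, h5, fun h => h5 h.virtuallyNilpotent⟩

end Pool.Agent.Results.MP_e7e442_gt.SmallerDiameter
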